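import Mathlib

/-!
# Diagonal sublattices of lattices in a finitely generated variety: the algebra

`KL` (the key lemma), the Baker–Pixley lemma `BP`, and the pigeonhole argument.
-/

namespace Pool.Agent.K1H24.Diag

universe u v w

section Med

variable {F : Type u} [Lattice F]

/-- The median term. -/
def med (a b c : F) : F := (a ⊓ b) ⊔ (b ⊓ c) ⊔ (c ⊓ a)

lemma med_map {P : Type v} [Lattice P] (p : LatticeHom F P) (a b c : F) :
    p (med a b c) = med (p a) (p b) (p c) := by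
  simp [med, map_sup, map_inf]

lemma med_aab (a c : F) : med a a c = a := by
  unfold med
  apply le_antisymm
  · simp
  · exact le_sup_of_le_left (le_sup_of_le_left (by simp))

lemma med_baa (a c : F) : med c a a = a := by
  unfold med
  apply le_antisymm
  · simp
  · exact le_sup_of_le_left (le_sup_of_le_right (by simp))

lemma med_aba (a c : F) : med a c a = a := by
  unfold med
  apply le_antisymm
  · simp
  · exact le_sup_of_le_right (by simp)

lemma inf_le_med₁ (a b c : F) : a ⊓ b ≤ med a b c := le_sup_of_le_left le_sup_left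
lemma inf_le_med₂ (a b c : F) : b ⊓ c ≤ med a b c := le_sup_of_le_left le_sup_right
lemma inf_le_med₃ (a b c : F) : c ⊓ a ≤ med a b c := le_sup_right

lemma med_le₁ (a b c : F) : med a b c ≤ a ⊔ b := by
  unfold med
  refine sup_le (sup_le ?_ ?_) ?_
  · exact inf_le_left.trans le_sup_left
  · exact inf_le_left.trans le_sup_right
  · exact inf_le_right.trans le_sup_left

lemma med_le₂ (a b c : F) : med a b c ≤ b ⊔ c := by
  unfold med
  refine sup_le (sup_le ?_ ?_) ?_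
  · exact inf_le_right.trans le_sup_left
  · exact inf_le_left.trans le_sup_left
  · exact inf_le_left.trans le_sup_right

lemma med_le₃ (a b c : F) : med a b c ≤ c ⊔ a := by
  unfold med
  refine sup_le (sup_le ?_ ?_) ?_
  · exact inf_le_left.trans le_sup_right
  · exact inf_le_right.trans le_sup_left
  · exact inf_le_left.trans le_sup_left

end Med

section Key

variable {F : Type u} {P : Type v} {Q : Type w} [Lattice F] [Lattice P] [Lattice Q]

lemma sec₁ (S : Sublattice (F × F)) (hS : ∀ x, (x, x) ∈ S) {x₁ x₂ y₁ y₂ m : F}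
    (h1 : (x₁, y₁) ∈ S) (h2 : (x₂, y₂) ∈ S) (hl : x₁ ⊓ x₂ ≤ m) (hu : m ≤ x₁ ⊔ x₂) :
    (m, (m ⊔ (y₁ ⊓ y₂)) ⊓ (y₁ ⊔ y₂)) ∈ S := by
  have h := S.inf_mem (S.sup_mem (hS m) (S.inf_mem h1 h2)) (S.sup_mem h1 h2)
  have e : ((m, m) ⊔ ((x₁, y₁) ⊓ (x₂, y₂))) ⊓ ((x₁, y₁) ⊔ (x₂, y₂))
      = (m, (m ⊔ (y₁ ⊓ y₂)) ⊓ (y₁ ⊔ y₂)) := by
    ext
    · show (m ⊔ (x₁ ⊓ x₂)) ⊓ (x₁ ⊔ x₂) = m
      rw [sup_eq_left.2 hl, inf_eq_left.2 hu]
    · rfl
  rwa [e] at h

lemma sec₂ (S : Sublattice (F × F)) (hS : ∀ x, (x, x) ∈ S) {x₁ x₂ y₁ y₂ m : F}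
    (h1 : (x₁, y₁) ∈ S) (h2 : (x₂, y₂) ∈ S) (hl : y₁ ⊓ y₂ ≤ m) (hu : m ≤ y₁ ⊔ y₂) :
    ((m ⊔ (x₁ ⊓ x₂)) ⊓ (x₁ ⊔ x₂), m) ∈ S := by
  have h := S.inf_mem (S.sup_mem (hS m) (S.inf_mem h1 h2)) (S.sup_mem h1 h2)
  have e : ((m, m) ⊔ ((x₁, y₁) ⊓ (x₂, y₂))) ⊓ ((x₁, y₁) ⊔ (x₂, y₂))
      = ((m ⊔ (x₁ ⊓ x₂)) ⊓ (x₁ ⊔ x₂), m) := by
    ext
    · rfl
    · show (m ⊔ (y₁ ⊓ y₂)) ⊓ (y₁ ⊔ y₂) = m
      rw [sup_eq_left.2 hl, inf_eq_left.2 hu]
  rwa [e] at h

/-- **Key lemma.** For diagonal sublattices `S`, `T` of `F × F` and homomorphisms `p`, `q`, the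
image of `S ∩ T` under `p × q` is the intersection of the images of `S` and `T`. -/
theorem KL (S T : Sublattice (F × F)) (hS : ∀ x, (x, x) ∈ S) (hT : ∀ x, (x, x) ∈ T)
    (p : LatticeHom F P) (q : LatticeHom F Q) {f₁ g₁ f₂ g₂ : F}
    (h1 : (f₁, g₁) ∈ S) (h2 : (f₂, g₂) ∈ T) (hp : p f₁ = p f₂) (hq : q g₁ = q g₂) :
    ∃ f g, (f, g) ∈ S ∧ (f, g) ∈ T ∧ p f = p f₁ ∧ q g = q g₁ := by
  set m := med f₁ f₂ g₁ with hm
  have a1 : (m, g₁) ∈ S := by
    have h := sec₁ S hS h1 (hS g₁) (m := m)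
      (by rw [hm, inf_comm]; exact inf_le_med₃ _ _ _)
      (by rw [hm, sup_comm]; exact med_le₃ _ _ _)
    have e : (m ⊔ (g₁ ⊓ g₁)) ⊓ (g₁ ⊔ g₁) = g₁ := by
      rw [inf_idem, sup_idem]; exact inf_eq_right.2 le_sup_right
    rwa [e] at h
  obtain ⟨g₄, a2, hg4⟩ : ∃ g₄, (m, g₄) ∈ T ∧ q g₄ = q g₁ := by
    refine ⟨_, sec₁ T hT h2 (hT g₁) (m := m) (inf_le_med₂ _ _ _) (med_le₂ _ _ _), ?_⟩
    rw [map_inf, map_sup, map_inf, map_sup, ← hq, inf_idem, sup_idem]
    exact inf_eq_right.2 le_sup_right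
  set m' := med g₁ g₄ m with hm'
  have key : (m' ⊔ (m ⊓ m)) ⊓ (m ⊔ m) = m := by
    rw [inf_idem, sup_idem]; exact inf_eq_right.2 le_sup_right
  refine ⟨m, m', ?_, ?_, ?_, ?_⟩
  · have h := sec₂ S hS a1 (hS m) (m := m')
      (by rw [hm', inf_comm]; exact inf_le_med₃ _ _ _)
      (by rw [hm', sup_comm]; exact med_le₃ _ _ _)
    rwa [key] at h
  · have h := sec₂ T hT a2 (hT m) (m := m') (inf_le_med₂ _ _ _) (med_le₂ _ _ _)
    rwa [key] at h
  · rw [hm, med_map, ← hp, med_aab]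
  · rw [hm', med_map, hg4, med_aab]

end Key

section BP

variable {K : Type u} {M : Type v} {I : Type w} [Lattice K] [Lattice M]

/-- The Baker–Pixley lemma for sublattices and finitely many coordinates. -/
theorem BP [Finite I] (e : I → LatticeHom K M) (he : ∀ z w, (∀ i, e i z = e i w) → z = w)
    (S : Sublattice K) (hne : ∃ s, s ∈ S) (z : K)
    (h : ∀ i j, ∃ s ∈ S, e i s = e i z ∧ e j s = e j z) : z ∈ S := by
  classical
  have main : ∀ J : Finset I, ∃ s ∈ S, ∀ i ∈ J, e i s = e i z := by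
    intro J
    induction J using Finset.strongInduction with
    | H J ih =>
      by_cases h2 : 2 < J.card
      · obtain ⟨a, ha, b, hb, c, hc, hab, hac, hbc⟩ := Finset.two_lt_card.1 h2
        obtain ⟨s1, hs1, h1⟩ := ih _ (Finset.erase_ssubset ha)
        obtain ⟨s2, hs2, h2'⟩ := ih _ (Finset.erase_ssubset hb)
        obtain ⟨s3, hs3, h3⟩ := ih _ (Finset.erase_ssubset hc)
        refine ⟨med s1 s2 s3, S.sup_mem (S.sup_mem (S.inf_mem hs1 hs2) (S.inf_mem hs2 hs3))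
          (S.inf_mem hs3 hs1), ?_⟩
        intro i hi
        rw [med_map]
        by_cases hia : i = a
        · subst hia
          rw [h2' i (Finset.mem_erase.2 ⟨hab, hi⟩), h3 i (Finset.mem_erase.2 ⟨hac, hi⟩), med_baa]
        · rw [h1 i (Finset.mem_erase.2 ⟨hia, hi⟩)]
          by_cases hib : i = b
          · subst hib
            rw [h3 i (Finset.mem_erase.2 ⟨hbc, hi⟩), med_aba]
          · rw [h2' i (Finset.mem_erase.2 ⟨hib, hi⟩), med_aab]
      · have h3 : J.card ≤ 2 := by omega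
        rcases J.eq_empty_or_nonempty with rfl | hJ
        · obtain ⟨s, hs⟩ := hne
          exact ⟨s, hs, by simp⟩
        · have h4 : J.card = 1 ∨ J.card = 2 := by
            have := hJ.card_pos
            omega
          rcases h4 with h4 | h4
          · obtain ⟨a, rfl⟩ := Finset.card_eq_one.1 h4
            obtain ⟨s, hs, h5, -⟩ := h a a
            exact ⟨s, hs, by simpa using h5⟩
          · obtain ⟨a, b, -, rfl⟩ := Finset.card_eq_two.1 h4
            obtain ⟨s, hs, h5, h6⟩ := h a b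
            exact ⟨s, hs, by simp [h5, h6]⟩
  have := Fintype.ofFinite I
  obtain ⟨s, hs, h1⟩ := main Finset.univ
  have : s = z := he _ _ fun i => h1 i (Finset.mem_univ i)
  exact this ▸ hs

end BP

section Pigeon

variable {F : Type u} {M : Type v} {X : Type w} [Lattice F] [Lattice M]

/-- The homomorphism `p × q`. -/
def pmap {A : Type*} {B : Type*} {C : Type*} {D : Type*} [Lattice A] [Lattice B] [Lattice C]
    [Lattice D] (p : LatticeHom A C) (q : LatticeHom B D) : LatticeHom (A × B) (C × D) where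
  toFun z := (p z.1, q z.2)
  map_sup' a b := by ext <;> simp
  map_inf' a b := by ext <;> simp

instance finiteSub (N : Type v) [Lattice N] [Finite N] : Finite (Sublattice N) :=
  Finite.of_injective (fun S : Sublattice N => (S : Set N)) fun _ _ h => SetLike.coe_injective h

theorem pigeon [Finite M] [Finite X] (π : X → LatticeHom F M)
    (hπ : ∀ a b, (∀ x, π x a = π x b) → a = b) {n : ℕ}
    (hn : Nat.card (Sublattice (M × M)) + 1 < n) (S : ℕ → Sublattice (F × F))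
    (hS : ∀ i, ∀ x, (x, x) ∈ S i) (B : Sublattice (F × F))
    (hB : ∀ i j, i < j → j < n → S i ⊓ S j ≤ B) (z : F × F)
    (hz : ∀ i j, i < j → j < n → z ∈ S i ⊔ S j) : z ∈ B := by
  classical
  have hBd : ∀ x, (x, x) ∈ B := fun x =>
    hB 0 1 Nat.zero_lt_one (by omega) ⟨hS 0 x, hS 1 x⟩
  have key : ∀ x y, ∃ s ∈ B, π x s.1 = π x z.1 ∧ π y s.2 = π y z.2 := by
    intro x y
    set ψ := pmap (π x) (π y) with hψ
    have hninj : ¬ Function.Injective (fun i : Fin n => (S i).map ψ) := by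
      intro hinj
      have := Nat.card_le_card_of_injective _ hinj
      rw [Nat.card_eq_fintype_card, Fintype.card_fin] at this
      omega
    obtain ⟨i, j, hij, hlt⟩ : ∃ i j : Fin n, (S i).map ψ = (S j).map ψ ∧ i < j := by
      simp only [Function.Injective, not_forall] at hninj
      obtain ⟨a, b, hab, hne⟩ := hninj
      rcases lt_or_gt_of_ne hne with h | h
      · exact ⟨a, b, hab, h⟩
      · exact ⟨b, a, hab.symm, h⟩
    have h1 : ψ z ∈ (S i ⊔ S j).map ψ :=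
      Sublattice.mem_map_of_mem _ (hz i j hlt j.2)
    rw [Sublattice.map_sup, ← hij, sup_idem] at h1
    have h2 := h1
    rw [hij] at h2
    obtain ⟨⟨f₁, g₁⟩, m1, e1⟩ := h1
    obtain ⟨⟨f₂, g₂⟩, m2, e2⟩ := h2
    have e1a : π x f₁ = π x z.1 := congrArg Prod.fst e1
    have e1b : π y g₁ = π y z.2 := congrArg Prod.snd e1
    have e2a : π x f₂ = π x z.1 := congrArg Prod.fst e2
    have e2b : π y g₂ = π y z.2 := congrArg Prod.snd e2
    obtain ⟨f, g, m3, m4, e3, e4⟩ := KL (S i) (S j) (hS i) (hS j) (π x) (π y) m1 m2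
      (e1a.trans e2a.symm) (e1b.trans e2b.symm)
    exact ⟨(f, g), hB i j hlt j.2 ⟨m3, m4⟩, e3.trans e1a, e4.trans e1b⟩
  refine BP (I := X ⊕ X) (M := M)
    (fun i => Sum.elim (fun x => (π x).comp LatticeHom.fst)
      (fun y => (π y).comp LatticeHom.snd) i) ?_ B ⟨(z.1, z.1), hBd _⟩ z ?_
  · rintro ⟨a, b⟩ ⟨c, d⟩ h
    ext
    · exact hπ _ _ fun x => h (Sum.inl x)
    · exact hπ _ _ fun x => h (Sum.inr x)
  · rintro (x | x) (y | y)
    · exact ⟨(z.1, z.1), hBd _, rfl, rfl⟩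
    · obtain ⟨s, hs, h1, h2⟩ := key x y
      exact ⟨s, hs, h1, h2⟩
    · obtain ⟨s, hs, h1, h2⟩ := key y x
      exact ⟨s, hs, h2, h1⟩
    · exact ⟨(z.2, z.2), hBd _, rfl, rfl⟩

end Pigeon

section Push

variable {F : Type u} {M : Type v} {X : Type w} [Lattice F] [Lattice M]
  {L : Type*} [Lattice L]

/-- Iterated key lemma. -/
theorem KLfin {ι : Type*} (φ : LatticeHom F L) (W : ι → Sublattice (F × F))
    (hW : ∀ i x, (x, x) ∈ W i) (z : L × L) (h0 : ∃ w, pmap φ φ w = z) (J : Finset ι)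
    (h : ∀ i ∈ J, ∃ w ∈ W i, pmap φ φ w = z) :
    ∃ w, pmap φ φ w = z ∧ ∀ i ∈ J, w ∈ W i := by
  classical
  induction J using Finset.induction_on with
  | empty => obtain ⟨w, hw⟩ := h0; exact ⟨w, hw, by simp⟩
  | insert a J ha ih =>
    obtain ⟨⟨f₁, g₁⟩, e1, m1⟩ := ih fun i hi => h i (Finset.mem_insert_of_mem hi)
    obtain ⟨⟨f₂, g₂⟩, m2, e2⟩ := h a (Finset.mem_insert_self a J)
    have e3 : pmap φ φ (f₁, g₁) = pmap φ φ (f₂, g₂) := e1.trans e2.symm
    obtain ⟨f, g, m3, m4, e4, e5⟩ := KL (⨅ i ∈ J, W i) (W a)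
      (fun x => by simp only [Sublattice.mem_iInf]; exact fun i _ => hW i x) (hW a) φ φ
      (f₁ := f₁) (g₁ := g₁) (f₂ := f₂) (g₂ := g₂)
      (by simp only [Sublattice.mem_iInf]; exact m1) m2
      (congrArg Prod.fst e3) (congrArg Prod.snd e3)
    refine ⟨(f, g), ?_, ?_⟩
    · rw [← e1]
      exact Prod.ext e4 e5
    · intro i hi
      rcases Finset.mem_insert.1 hi with rfl | hi
      · exact m4
      · simp only [Sublattice.mem_iInf] at m3
        exact m3 i hi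

theorem push [Finite M] [Finite X] (π : X → LatticeHom F M)
    (hπ : ∀ a b, (∀ x, π x a = π x b) → a = b) {n : ℕ}
    (hn : Nat.card (Sublattice (M × M)) + 1 < n) (φ : LatticeHom F L)
    (S : ℕ → Sublattice (L × L)) (hS : ∀ i, ∀ x, (x, x) ∈ S i) (B : Sublattice (L × L))
    (hB : ∀ i j, i < j → j < n → S i ⊓ S j ≤ B) (z : L × L)
    (hz : ∀ i j, i < j → j < n →
      ∃ w ∈ (S i).comap (pmap φ φ) ⊔ (S j).comap (pmap φ φ), pmap φ φ w = z) : z ∈ B := by
  classical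
  have hd : ∀ i x, (x, x) ∈ (S i).comap (pmap φ φ) := fun i x => hS i (φ x)
  set J : Finset (ℕ × ℕ) := (Finset.range n ×ˢ Finset.range n).filter fun p => p.1 < p.2 with hJ
  have hmem : ∀ i j, i < j → j < n → (i, j) ∈ J := by
    intro i j h1 h2
    simp only [hJ, Finset.mem_filter, Finset.mem_product, Finset.mem_range]
    omega
  obtain ⟨w, hw, hwJ⟩ := KLfin φ
    (fun p : ℕ × ℕ => (S p.1).comap (pmap φ φ) ⊔ (S p.2).comap (pmap φ φ))
    (fun p x => (le_sup_left : (S p.1).comap (pmap φ φ) ≤ _) (hd p.1 x)) z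
    (by obtain ⟨w, -, hw⟩ := hz 0 1 Nat.zero_lt_one (by omega); exact ⟨w, hw⟩) J
    (by
      rintro ⟨i, j⟩ hij
      simp only [hJ, Finset.mem_filter, Finset.mem_product, Finset.mem_range] at hij
      exact hz i j hij.2 hij.1.2)
  have h1 : w ∈ B.comap (pmap φ φ) := by
    refine pigeon π hπ hn (fun i => (S i).comap (pmap φ φ)) hd _ ?_ w ?_
    · intro i j h1 h2
      rw [← Sublattice.comap_inf]
      exact Sublattice.comap_mono (hB i j h1 h2)
    · intro i j h1 h2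
      exact hwJ (i, j) (hmem i j h1 h2)
  rw [← hw]
  exact h1

end Push

end Pool.Agent.K1H24.Diag
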