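import Pool.Agent.K1H24.Diag.Core

/-!
# Lattice terms, identities, and the lattice of diagonal sublattices
-/

namespace Pool.Agent.K1H24.Diag

universe u v w

/-- Lattice terms in the variables `x₀, x₁, x₂, …`. -/
inductive LTm : Type
  | var : ℕ → LTm
  | inf : LTm → LTm → LTm
  | sup : LTm → LTm → LTm

/-- The value of a term under an assignment `ρ` of elements of the lattice `L` to the variables. -/
def LTm.ev {L : Type u} [Lattice L] (ρ : ℕ → L) : LTm → L
  | .var n => ρ n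
  | .inf s t => s.ev ρ ⊓ t.ev ρ
  | .sup s t => s.ev ρ ⊔ t.ev ρ

/-- The identity `e.1 ≈ e.2` holds in the lattice `L`. -/
def Holds (L : Type u) [Lattice L] (e : LTm × LTm) : Prop :=
  ∀ ρ : ℕ → L, e.1.ev ρ = e.2.ev ρ

/-- `L` is a member of the variety defined by the set `E` of identities. -/
def InVar (E : Set (LTm × LTm)) (L : Type u) [Lattice L] : Prop := ∀ e ∈ E, Holds L e

/-- `Δ(L)`: the diagonal sublattices of `L × L`.  It is a sublattice of the lattice of all
sublattices of `L × L`; so meet is intersection and join is the sublattice generated by the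
union. -/
def Diag (L : Type u) [Lattice L] : Sublattice (Sublattice (L × L)) where
  carrier := {S | ∀ x : L, (x, x) ∈ S}
  supClosed' := fun S hS T _ x => (le_sup_left : S ≤ S ⊔ T) (hS x)
  infClosed' := fun _ hS _ hT x => ⟨hS x, hT x⟩

/-- Renaming variables. -/
def LTm.ren (f : ℕ → ℕ) : LTm → LTm
  | .var n => .var (f n)
  | .inf s t => .inf (s.ren f) (t.ren f)
  | .sup s t => .sup (s.ren f) (t.ren f)

lemma LTm.ev_ren {L : Type u} [Lattice L] (ρ : ℕ → L) (f : ℕ → ℕ) (t : LTm) :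
    (t.ren f).ev ρ = t.ev (fun n => ρ (f n)) := by
  induction t with
  | var n => rfl
  | inf s t hs ht => simp [LTm.ren, LTm.ev, hs, ht]
  | sup s t hs ht => simp [LTm.ren, LTm.ev, hs, ht]

section Model

variable {M : Type u} [Lattice M]

/-- Assignments with finitely many free values. -/
def clampA (k : ℕ) (σ : Fin (k + 1) → M) : ℕ → M := fun n =>
  σ ⟨min n k, by omega⟩

/-- The finite free lattice on `k + 1` generators of the variety generated by `M`. -/
def Free (M : Type u) [Lattice M] (k : ℕ) : Sublattice ((Fin (k + 1) → M) → M) where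
  carrier := Set.range fun (t : LTm) (σ : Fin (k + 1) → M) => t.ev (clampA k σ)
  supClosed' := by
    rintro _ ⟨s, rfl⟩ _ ⟨t, rfl⟩
    exact ⟨.sup s t, rfl⟩
  infClosed' := by
    rintro _ ⟨s, rfl⟩ _ ⟨t, rfl⟩
    exact ⟨.inf s t, rfl⟩

variable {L : Type v} [Lattice L]

lemma ev_eq_of_ev_eq (hL : ∀ e, Holds M e → Holds L e) (k : ℕ) (l : ℕ → L) (s t : LTm)
    (h : ∀ σ : Fin (k + 1) → M, s.ev (clampA k σ) = t.ev (clampA k σ)) :
    s.ev (fun n => l (min n k)) = t.ev (fun n => l (min n k)) := by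
  have h1 : Holds M (s.ren (fun n => min n k), t.ren (fun n => min n k)) := by
    intro τ
    have h2 := h fun i => τ i
    simp only [LTm.ev_ren]
    exact h2
  have h3 := hL _ h1 l
  simpa [LTm.ev_ren] using h3

/-- The canonical map from the free lattice to a member of the variety. -/
noncomputable def freeMap (hL : ∀ e, Holds M e → Holds L e) (k : ℕ) (l : ℕ → L) :
    LatticeHom (Free M k) L where
  toFun u := (Classical.choose u.2).ev (fun n => l (min n k))
  map_sup' a b := by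
    show _ = (LTm.sup (Classical.choose a.2) (Classical.choose b.2)).ev _
    apply ev_eq_of_ev_eq hL
    intro σ
    have h1 := congrFun (Classical.choose_spec (a ⊔ b).2) σ
    have h2 := congrFun (Classical.choose_spec a.2) σ
    have h3 := congrFun (Classical.choose_spec b.2) σ
    simp only at h1 h2 h3
    rw [h1]
    show _ = (Classical.choose a.2).ev _ ⊔ (Classical.choose b.2).ev _
    rw [h2, h3]
    rfl
  map_inf' a b := by
    show _ = (LTm.inf (Classical.choose a.2) (Classical.choose b.2)).ev _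
    apply ev_eq_of_ev_eq hL
    intro σ
    have h1 := congrFun (Classical.choose_spec (a ⊓ b).2) σ
    have h2 := congrFun (Classical.choose_spec a.2) σ
    have h3 := congrFun (Classical.choose_spec b.2) σ
    simp only at h1 h2 h3
    rw [h1]
    show _ = (Classical.choose a.2).ev _ ⊓ (Classical.choose b.2).ev _
    rw [h2, h3]
    rfl

lemma freeMap_hits (hL : ∀ e, Holds M e → Holds L e) (k : ℕ) (l : ℕ → L) (i : ℕ) (hi : i ≤ k) :
    ∃ a, freeMap hL k l a = l i := by
  refine ⟨⟨_, ⟨LTm.var i, rfl⟩⟩, ?_⟩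
  have h : ∀ u : Free M k, freeMap hL k l u = (Classical.choose u.2).ev (fun n => l (min n k)) :=
    fun _ => rfl
  rw [h]
  have h2 : (LTm.var i).ev (fun n => l (min n k)) = l i := by
    show l (min i k) = l i
    rw [min_eq_left hi]
  rw [← h2]
  apply ev_eq_of_ev_eq hL
  intro σ
  exact congrFun (Classical.choose_spec
    (⟨fun σ : Fin (k + 1) → M => (LTm.var i).ev (clampA k σ), ⟨LTm.var i, rfl⟩⟩ : Free M k).2) σ

/-- Every finite subset of a member `L` of the variety of `M` lies in the image of a finite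
sublattice of a finite power of `M`. -/
lemma exists_model (hL : ∀ e, Holds M e → Holds L e) (x₀ : L) (Λ : Finset L) :
    ∃ (k : ℕ) (φ : LatticeHom (Free M k) L), ∀ x ∈ Λ, ∃ a, φ a = x := by
  classical
  refine ⟨Λ.toList.length, freeMap hL _ (fun i => Λ.toList.getD i x₀), ?_⟩
  intro x hx
  obtain ⟨i, hi, hix⟩ := List.getElem_of_mem (Finset.mem_toList.2 hx)
  obtain ⟨a, ha⟩ := freeMap_hits hL Λ.toList.length (fun i => Λ.toList.getD i x₀) i hi.le
  refine ⟨a, ha.trans ?_⟩
  show Λ.toList.getD i x₀ = x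
  rw [List.getD_eq_getElem _ _ hi, hix]

/-- Joins of sublattices of `L × L` are local. -/
lemma local_sup (S T : Sublattice (L × L)) (z : L × L) (hz : z ∈ S ⊔ T) :
    ∃ Λ : Finset L, ∀ (k : ℕ) (φ : LatticeHom (Free M k) L), (∀ x ∈ Λ, ∃ a, φ a = x) →
      ∃ w ∈ S.comap (pmap φ φ) ⊔ T.comap (pmap φ φ), pmap φ φ w = z := by
  classical
  let G : Sublattice (L × L) :=
    { carrier := {z | ∃ Λ : Finset L, ∀ (k : ℕ) (φ : LatticeHom (Free M k) L),
        (∀ x ∈ Λ, ∃ a, φ a = x) →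
        ∃ w ∈ S.comap (pmap φ φ) ⊔ T.comap (pmap φ φ), pmap φ φ w = z}
      supClosed' := by
        rintro a ⟨Λ₁, h1⟩ b ⟨Λ₂, h2⟩
        refine ⟨Λ₁ ∪ Λ₂, fun k φ h => ?_⟩
        obtain ⟨w1, m1, e1⟩ := h1 k φ fun x hx => h x (Finset.mem_union_left _ hx)
        obtain ⟨w2, m2, e2⟩ := h2 k φ fun x hx => h x (Finset.mem_union_right _ hx)
        exact ⟨w1 ⊔ w2, Sublattice.sup_mem m1 m2, by rw [map_sup, e1, e2]⟩
      infClosed' := by
        rintro a ⟨Λ₁, h1⟩ b ⟨Λ₂, h2⟩
        refine ⟨Λ₁ ∪ Λ₂, fun k φ h => ?_⟩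
        obtain ⟨w1, m1, e1⟩ := h1 k φ fun x hx => h x (Finset.mem_union_left _ hx)
        obtain ⟨w2, m2, e2⟩ := h2 k φ fun x hx => h x (Finset.mem_union_right _ hx)
        exact ⟨w1 ⊓ w2, Sublattice.inf_mem m1 m2, by rw [map_inf, e1, e2]⟩ }
  have hSG : S ≤ G := by
    intro y hy
    refine ⟨{y.1, y.2}, fun k φ h => ?_⟩
    obtain ⟨a, ha⟩ := h y.1 (by simp)
    obtain ⟨b, hb⟩ := h y.2 (by simp)
    have hab : pmap φ φ (a, b) = y := Prod.ext ha hb
    refine ⟨(a, b), (le_sup_left : S.comap (pmap φ φ) ≤ _) ?_, hab⟩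
    show pmap φ φ (a, b) ∈ S
    rw [hab]
    exact hy
  have hTG : T ≤ G := by
    intro y hy
    refine ⟨{y.1, y.2}, fun k φ h => ?_⟩
    obtain ⟨a, ha⟩ := h y.1 (by simp)
    obtain ⟨b, hb⟩ := h y.2 (by simp)
    have hab : pmap φ φ (a, b) = y := Prod.ext ha hb
    refine ⟨(a, b), (le_sup_right : T.comap (pmap φ φ) ≤ _) ?_, hab⟩
    show pmap φ φ (a, b) ∈ T
    rw [hab]
    exact hy
  exact (sup_le hSG hTG) hz

/-- The main algebraic statement, for arbitrary members `L` of the variety generated by the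
finite lattice `M`. -/
theorem main [Finite M] (hL : ∀ e, Holds M e → Holds L e) {n : ℕ}
    (hn : Nat.card (Sublattice (M × M)) + 1 < n)
    (S : ℕ → Sublattice (L × L)) (hS : ∀ i, ∀ x, (x, x) ∈ S i) (B : Sublattice (L × L))
    (hB : ∀ i j, i < j → j < n → S i ⊓ S j ≤ B) (z : L × L)
    (hz : ∀ i j, i < j → j < n → z ∈ S i ⊔ S j) : z ∈ B := by
  classical
  have h1 : ∀ p : ℕ × ℕ, ∃ Λ : Finset L, p.1 < p.2 → p.2 < n →
      ∀ (k : ℕ) (φ : LatticeHom (Free M k) L), (∀ x ∈ Λ, ∃ a, φ a = x) →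
      ∃ w ∈ (S p.1).comap (pmap φ φ) ⊔ (S p.2).comap (pmap φ φ), pmap φ φ w = z := by
    intro p
    by_cases h : p.1 < p.2 ∧ p.2 < n
    · obtain ⟨Λ, hΛ⟩ := local_sup (M := M) (S p.1) (S p.2) z (hz p.1 p.2 h.1 h.2)
      exact ⟨Λ, fun _ _ => hΛ⟩
    · exact ⟨∅, fun h2 h3 => (h ⟨h2, h3⟩).elim⟩
  choose Λ hΛ using h1
  obtain ⟨k, φ, hφ⟩ := exists_model hL z.1 ((Finset.range n ×ˢ Finset.range n).biUnion Λ)
  refine push (X := Fin (k + 1) → M) (M := M) (F := Free M k)
    (fun σ => ⟨⟨fun u => u.1 σ, fun _ _ => rfl⟩, fun _ _ => rfl⟩) ?_ hn φ S hS B hB z ?_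
  · intro a b h
    exact Subtype.ext (funext h)
  · intro i j h1 h2
    refine hΛ (i, j) h1 h2 k φ fun x hx => hφ x ?_
    refine Finset.mem_biUnion.2 ⟨(i, j), ?_, hx⟩
    simp only [Finset.mem_product, Finset.mem_range]
    omega

end Model

section Identity

/-- `⋀ (xᵢ ∨ xⱼ)` over a list of pairs (with the pair `0, 1` added). -/
def bigInf (l : List (ℕ × ℕ)) : LTm :=
  l.foldr (fun p acc => .inf (.sup (.var p.1) (.var p.2)) acc) (.sup (.var 0) (.var 1))

/-- `⋁ (xᵢ ∧ xⱼ)` over a list of pairs (with the pair `0, 1` added). -/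
def bigSup (l : List (ℕ × ℕ)) : LTm :=
  l.foldr (fun p acc => .sup (.inf (.var p.1) (.var p.2)) acc) (.inf (.var 0) (.var 1))

lemma bigInf_le {L : Type u} [Lattice L] (ρ : ℕ → L) (l : List (ℕ × ℕ)) :
    ∀ p ∈ l, (bigInf l).ev ρ ≤ ρ p.1 ⊔ ρ p.2 := by
  induction l with
  | nil => simp
  | cons a l ih =>
    intro p hp
    rcases List.mem_cons.1 hp with rfl | hp
    · exact inf_le_left
    · exact inf_le_right.trans (ih p hp)

lemma le_bigSup {L : Type u} [Lattice L] (ρ : ℕ → L) (l : List (ℕ × ℕ)) :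
    ∀ p ∈ l, ρ p.1 ⊓ ρ p.2 ≤ (bigSup l).ev ρ := by
  induction l with
  | nil => simp
  | cons a l ih =>
    intro p hp
    rcases List.mem_cons.1 hp with rfl | hp
    · exact le_sup_left
    · exact (ih p hp).trans le_sup_right

lemma bigInf_eq {L : Type u} [Lattice L] (ρ : ℕ → L) (t : L)
    (h : ∀ i j, i ≠ j → ρ i ⊔ ρ j = t) (l : List (ℕ × ℕ)) (hl : ∀ p ∈ l, p.1 ≠ p.2) :
    (bigInf l).ev ρ = t := by
  induction l with
  | nil => exact h 0 1 (by decide)
  | cons a l ih =>
    show (ρ a.1 ⊔ ρ a.2) ⊓ (bigInf l).ev ρ = t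
    rw [ih fun p hp => hl p (List.mem_cons_of_mem _ hp), h _ _ (hl a List.mem_cons_self),
      inf_idem]

lemma bigSup_eq {L : Type u} [Lattice L] (ρ : ℕ → L) (t : L)
    (h : ∀ i j, i ≠ j → ρ i ⊓ ρ j = t) (l : List (ℕ × ℕ)) (hl : ∀ p ∈ l, p.1 ≠ p.2) :
    (bigSup l).ev ρ = t := by
  induction l with
  | nil => exact h 0 1 (by decide)
  | cons a l ih =>
    show (ρ a.1 ⊓ ρ a.2) ⊔ (bigSup l).ev ρ = t
    rw [ih fun p hp => hl p (List.mem_cons_of_mem _ hp), h _ _ (hl a List.mem_cons_self),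
      sup_idem]

/-- The pairs `i < j < n`. -/
def pairs (n : ℕ) : List (ℕ × ℕ) :=
  ((List.range n).product (List.range n)).filter fun p => p.1 < p.2

lemma mem_pairs {n i j : ℕ} : (i, j) ∈ pairs n ↔ i < j ∧ j < n := by
  simp only [pairs, List.mem_filter, List.mem_range, decide_eq_true_eq,
    show (List.range n).product (List.range n) = List.range n ×ˢ List.range n from rfl,
    List.mem_product]
  omega

/-- The identity `⋀_{i<j<n} (xᵢ ∨ xⱼ) ≤ ⋁_{i<j<n} (xᵢ ∧ xⱼ)`, written as an equation. -/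
def pig (n : ℕ) : LTm × LTm := (.inf (bigInf (pairs n)) (bigSup (pairs n)), bigInf (pairs n))

theorem holds_pig {M : Type u} [Lattice M] [Finite M] {L : Type v} [Lattice L]
    (hL : ∀ e, Holds M e → Holds L e) :
    Holds (Diag L) (pig (Nat.card (Sublattice (M × M)) + 2)) := by
  intro ρ
  show (bigInf _).ev ρ ⊓ (bigSup _).ev ρ = (bigInf _).ev ρ
  rw [inf_eq_left]
  intro z hz
  refine main hL (n := Nat.card (Sublattice (M × M)) + 2) (by omega) (fun i => (ρ i).1)
    (fun i => (ρ i).2) _ ?_ z ?_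
  · intro i j h1 h2
    exact le_bigSup ρ (pairs _) (i, j) (mem_pairs.2 ⟨h1, h2⟩)
  · intro i j h1 h2
    exact bigInf_le ρ (pairs _) (i, j) (mem_pairs.2 ⟨h1, h2⟩) hz

end Identity

section MX

/-- The lattice consisting of a bottom, a top, and the elements of `α` as pairwise
incomparable elements in between. -/
inductive MX (α : Type u) : Type u
  | bot : MX α
  | at : α → MX α
  | top : MX α

open Classical in
/-- The join of `MX α`. -/
noncomputable def MX.sup {α : Type u} : MX α → MX α → MX α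
  | .bot, y => y
  | x, .bot => x
  | .top, _ => .top
  | _, .top => .top
  | .at a, .at b => if a = b then .at a else .top

open Classical in
/-- The meet of `MX α`. -/
noncomputable def MX.inf {α : Type u} : MX α → MX α → MX α
  | .top, y => y
  | x, .top => x
  | .bot, _ => .bot
  | _, .bot => .bot
  | .at a, .at b => if a = b then .at a else .bot

noncomputable instance {α : Type u} : Max (MX α) := ⟨MX.sup⟩
noncomputable instance {α : Type u} : Min (MX α) := ⟨MX.inf⟩

noncomputable instance MX.lattice {α : Type u} : Lattice (MX α) :=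
  Lattice.mk'
    (by rintro (_|a|_) (_|b|_) <;> simp [Max.max, MX.sup] <;> split_ifs <;> simp_all)
    (by
      rintro (_|a|_) (_|b|_) (_|c|_) <;> simp [Max.max, MX.sup] <;> split_ifs <;>
        simp_all [MX.sup])
    (by rintro (_|a|_) (_|b|_) <;> simp [Min.min, MX.inf] <;> split_ifs <;> simp_all)
    (by
      rintro (_|a|_) (_|b|_) (_|c|_) <;> simp [Min.min, MX.inf] <;> split_ifs <;>
        simp_all [MX.inf])
    (by
      rintro (_|a|_) (_|b|_) <;> simp [Max.max, Min.min, MX.sup, MX.inf] <;> split_ifs <;>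
        simp_all [MX.sup, MX.inf])
    (by
      rintro (_|a|_) (_|b|_) <;> simp [Max.max, Min.min, MX.sup, MX.inf] <;> split_ifs <;>
        simp_all [MX.sup, MX.inf])

lemma MX.sup_at {α : Type u} {a b : α} (h : a ≠ b) : (MX.at a ⊔ MX.at b : MX α) = MX.top := by
  show MX.sup _ _ = _
  simp [MX.sup, h]

lemma MX.inf_at {α : Type u} {a b : α} (h : a ≠ b) : (MX.at a ⊓ MX.at b : MX α) = MX.bot := by
  show MX.inf _ _ = _
  simp [MX.inf, h]

theorem not_holds_pig (n : ℕ) : ¬ Holds (MX (ULift.{u} ℕ)) (pig n) := by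
  intro h
  have h1 := h fun i => MX.at ⟨i⟩
  have hl : ∀ p ∈ pairs n, p.1 ≠ p.2 := by
    rintro ⟨i, j⟩ hp
    exact (mem_pairs.1 hp).1.ne
  have h2 := bigInf_eq (fun i => (MX.at ⟨i⟩ : MX (ULift.{u} ℕ))) MX.top
    (fun i j hij => MX.sup_at (by simpa using hij)) (pairs n) hl
  have h3 := bigSup_eq (fun i => (MX.at ⟨i⟩ : MX (ULift.{u} ℕ))) MX.bot
    (fun i j hij => MX.inf_at (by simpa using hij)) (pairs n) hl
  change (bigInf (pairs n)).ev _ ⊓ (bigSup (pairs n)).ev _ = (bigInf (pairs n)).ev _ at h1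
  rw [h2, h3] at h1
  have h4 : (MX.top ⊓ MX.bot : MX (ULift.{u} ℕ)) = MX.bot := by
    show MX.inf _ _ = _
    simp [MX.inf]
  rw [h4] at h1
  exact absurd h1 (by simp)

end MX

end Pool.Agent.K1H24.Diag
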